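import Pool.Agent.Run7.h245.DI.Iface

/-!
Piece TWF of helper245's project DI: the elements of norm one of the ring of integers modulo 8 of the unramified cubic extension.
-/

set_option autoImplicit false
set_option linter.all false

namespace Pool.Agent.Run7.h224.DI

open Pool.Agent.Run7.h245.DI (m8 n8 K8 S_TWF)

theorem n8_eq (x y z : ZMod 8) : n8 (x, y, z) =
    x ^ 3 - y ^ 3 + z ^ 3 - 2 * x ^ 2 * z + x * y ^ 2 + x * z ^ 2 + 3 * x * y * z - y * z ^ 2 := by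
  simp only [n8, m8, Matrix.det_fin_three, Matrix.of_apply, Matrix.cons_val]
  ring

theorem m8_comm (a b) : m8 a b = m8 b a := by
  ext <;> simp only [m8] <;> ring

theorem m8_assoc (a b c) : m8 (m8 a b) c = m8 a (m8 b c) := by
  ext <;> simp only [m8] <;> ring

theorem n8_mul (a b) : n8 (m8 a b) = n8 a * n8 b := by
  obtain ⟨x, y, z⟩ := a
  obtain ⟨x', y', z'⟩ := b
  simp only [n8_eq, m8]
  ring


def LL : List ((ZMod 8 × ZMod 8 × ZMod 8) × (ZMod 8 × ZMod 8 × ZMod 8)) := [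
  ((0, 0, 1), (0, 7, 7)),
  ((0, 1, 0), (0, 0, 1)),
  ((0, 1, 1), (6, 5, 0)),
  ((0, 1, 2), (4, 0, 5)),
  ((0, 1, 3), (2, 1, 0)),
  ((0, 2, 1), (4, 3, 3)),
  ((1, 0, 0), (1, 0, 0)),
  ((1, 0, 1), (1, 7, 1)),
  ((1, 0, 2), (1, 4, 0)),
  ((1, 0, 3), (1, 7, 5)),
  ((1, 1, 0), (1, 2, 1)),
  ((1, 1, 1), (7, 7, 2)),
  ((1, 1, 2), (5, 2, 1)),
  ((1, 1, 3), (3, 3, 6)),
  ((1, 2, 0), (1, 4, 4)),
  ((1, 2, 1), (5, 7, 5)),
  ((1, 2, 2), (1, 0, 4)),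
  ((1, 2, 3), (5, 7, 1)),
  ((1, 3, 0), (1, 6, 1)),
  ((1, 3, 1), (3, 7, 2)),
  ((1, 3, 2), (5, 6, 1)),
  ((1, 3, 3), (7, 3, 6)),
  ((2, 0, 1), (4, 7, 3)),
  ((2, 1, 0), (4, 4, 1)),
  ((2, 1, 1), (2, 1, 4)),
  ((2, 1, 2), (0, 4, 5)),
  ((2, 1, 3), (6, 5, 4)),
  ((2, 2, 1), (0, 3, 7))]

theorem LL_ok1 : ∀ p ∈ LL, m8 p.1 p.1 = p.2 := by
  unfold LL
  simp only [List.forall_mem_cons, List.not_mem_nil, false_imp_iff, implies_true, and_true]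
  refine ⟨?_, ?_, ?_, ?_, ?_, ?_, ?_, ?_, ?_, ?_, ?_, ?_, ?_, ?_, ?_, ?_, ?_, ?_, ?_, ?_, ?_, ?_, ?_, ?_, ?_, ?_, ?_, ?_⟩ <;> decide

theorem LL_ok2 : ∀ p ∈ LL, (p.2.1 ^ 3 - p.2.2.1 ^ 3 + p.2.2.2 ^ 3 - 2 * p.2.1 ^ 2 * p.2.2.2 + p.2.1 * p.2.2.1 ^ 2
    + p.2.1 * p.2.2.2 ^ 2 + 3 * p.2.1 * p.2.2.1 * p.2.2.2 - p.2.2.1 * p.2.2.2 ^ 2) = 1 := by
  unfold LL
  simp only [List.forall_mem_cons, List.not_mem_nil, false_imp_iff, implies_true, and_true]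
  refine ⟨?_, ?_, ?_, ?_, ?_, ?_, ?_, ?_, ?_, ?_, ?_, ?_, ?_, ?_, ?_, ?_, ?_, ?_, ?_, ?_, ?_, ?_, ?_, ?_, ?_, ?_, ?_, ?_⟩ <;> decide

theorem LL_ok : ∀ p ∈ LL, n8 p.1 * n8 p.1 = 1 ∧ m8 p.1 p.1 = p.2 := by
  intro p hp
  refine ⟨?_, LL_ok1 p hp⟩
  rw [← n8_mul, LL_ok1 p hp]
  have := LL_ok2 p hp
  obtain ⟨q, x, y, z⟩ := p
  rw [n8_eq]
  exact this

def CV (x y z : ZMod 8) : Prop :=
  x ^ 3 - y ^ 3 + z ^ 3 - 2 * x ^ 2 * z + x * y ^ 2 + x * z ^ 2 + 3 * x * y * z - y * z ^ 2 = 1 →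
    ∃ p ∈ LL, ((x, y, z) = p.2 ∨ (x, y, z) = m8 (0, -1, 0) p.2) ∨ 
      (m8 (1, 2, 2) (x, y, z) = p.2 ∨ m8 (1, 2, 2) (x, y, z) = m8 (0, -1, 0) p.2)

instance instDecCV (x y z : ZMod 8) : Decidable (CV x y z) := by unfold CV; infer_instance

theorem cover0 : ∀ y z : ZMod 8, CV 0 y z := by decide +kernel

theorem cover1 : ∀ y z : ZMod 8, CV 1 y z := by decide +kernel

theorem cover2 : ∀ y z : ZMod 8, CV 2 y z := by decide +kernel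

theorem cover3 : ∀ y z : ZMod 8, CV 3 y z := by decide +kernel

theorem cover4 : ∀ y z : ZMod 8, CV 4 y z := by decide +kernel

theorem cover5 : ∀ y z : ZMod 8, CV 5 y z := by decide +kernel

theorem cover6 : ∀ y z : ZMod 8, CV 6 y z := by decide +kernel

theorem cover7 : ∀ y z : ZMod 8, CV 7 y z := by decide +kernel

theorem cover (x y z : ZMod 8) : CV x y z := by
  have h : x = 0 ∨ x = 1 ∨ x = 2 ∨ x = 3 ∨ x = 4 ∨ x = 5 ∨ x = 6 ∨ x = 7 := by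
    revert x; decide
  rcases h with h | h | h | h | h | h | h | h
  · rw [h]; exact cover0 y z
  · rw [h]; exact cover1 y z
  · rw [h]; exact cover2 y z
  · rw [h]; exact cover3 y z
  · rw [h]; exact cover4 y z
  · rw [h]; exact cover5 y z
  · rw [h]; exact cover6 y z
  · rw [h]; exact cover7 y z

theorem K8_of {a : ZMod 8 × ZMod 8 × ZMod 8} {p} (hp : p ∈ LL) (h : a = p.2 ∨ a = m8 (0, -1, 0) p.2) : K8 a := by
  obtain ⟨h1, h2⟩ := LL_ok p hp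
  exact ⟨p.1, IsUnit.of_mul_eq_one _ h1, by rw [h2]; exact h⟩

theorem K8_or (a : ZMod 8 × ZMod 8 × ZMod 8) (ha : n8 a = 1) : K8 a ∨ K8 (m8 (1, 2, 2) a) := by
  obtain ⟨x, y, z⟩ := a
  rw [n8_eq] at ha
  obtain ⟨p, hp, h | h⟩ := cover x y z ha
  · exact Or.inl (K8_of hp h)
  · exact Or.inr (K8_of hp h)

theorem m8_mm (a b c d) : m8 (m8 a b) (m8 c d) = m8 (m8 a c) (m8 b d) := by
  rw [m8_assoc, m8_assoc, ← m8_assoc b, ← m8_assoc c, m8_comm b c]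

theorem K8_sq {a s : ZMod 8 × ZMod 8 × ZMod 8} (ha : K8 a) (hs : IsUnit (n8 s)) : K8 (m8 (m8 s s) a) := by
  obtain ⟨r, hr, h | h⟩ := ha
  · refine ⟨m8 s r, by rw [n8_mul]; exact hs.mul hr, Or.inl ?_⟩
    rw [h, m8_mm]
  · refine ⟨m8 s r, by rw [n8_mul]; exact hs.mul hr, Or.inr ?_⟩
    rw [h, m8_mm s r s r, ← m8_assoc, m8_comm (m8 s s) (0, -1, 0), m8_assoc]

theorem K8_mul {a b : ZMod 8 × ZMod 8 × ZMod 8} (ha : K8 a) (hb : K8 b) : K8 (m8 a b) := by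
  obtain ⟨s, hs, h | h⟩ := ha
  · rw [h]; exact K8_sq hb hs
  · obtain ⟨r, hr, h' | h'⟩ := hb
    · rw [h, h', m8_assoc]
      refine ⟨m8 s r, by rw [n8_mul]; exact hs.mul hr, Or.inr ?_⟩
      rw [m8_mm]
    · rw [h, h', m8_mm, m8_mm s s r r]
      refine ⟨m8 (0, -1, 0) (m8 s r), ?_, Or.inl ?_⟩
      · rw [n8_mul, n8_mul]
        refine IsUnit.mul ?_ (hs.mul hr)
        rw [n8_eq]
        exact IsUnit.of_mul_eq_one 1 (by decide)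
      · rw [m8_mm]

theorem twf : S_TWF := by
  intro a b ha hb h
  by_cases hK : K8 a
  · exact K8_mul hK (h.1 hK)
  · have hK' : ¬ K8 b := fun h' => hK (h.2 h')
    have h1 := (K8_or a ha).resolve_left hK
    have h2 := (K8_or b hb).resolve_left hK'
    have h3 := K8_mul h1 h2
    rw [m8_mm] at h3
    have h4 : IsUnit (n8 (1, 2, 6)) := by
      rw [n8_eq]
      exact IsUnit.of_mul_eq_one 1 (by decide)
    have h5 := K8_sq h3 h4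
    rw [← m8_assoc, m8_mm (1, 2, 6) (1, 2, 6) (1, 2, 2) (1, 2, 2)] at h5
    have h6 : m8 (1, 2, 6) (1, 2, 2) = (1, 0, 0) := by decide
    rw [h6] at h5
    have h7 : m8 (m8 (1, 0, 0) (1, 0, 0)) (m8 a b) = m8 a b := by
      ext <;> simp [m8]
    rwa [h7] at h5

end Pool.Agent.Run7.h224.DI
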