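import Pool.Agent.Run7.h245.DI.Iface
import Pool.Agent.Run7.h382.SR.UN1

/-!
Piece UNX (all units outside a finite set of primes modulo squares) of helper245's project DI.
-/

set_option autoImplicit false
set_option linter.all false

open NumberField IsDedekindDomain
open scoped Classical

namespace Pool.Agent.Run7.h224.DI

open Pool.Agent.Run7.h245.DI (S_UNX)
open Pool.Agent.Run7.h382.SR (av av_eq_zero_iff exists_gen)

section

variable {L : Type} [Field L] [NumberField L]

/-- an element with all valuations zero is a unit -/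
theorem exists_unit (x : Additive Lˣ) (h : ∀ 𝔓 : HeightOneSpectrum (𝓞 L), av 𝔓 x = 0) :
    ∃ u : (𝓞 L)ˣ, algebraMap (𝓞 L) L (u : 𝓞 L) = ((x.toMul : Lˣ) : L) := by
  have h1 : ∀ 𝔓 : HeightOneSpectrum (𝓞 L), 𝔓.valuation L ((x.toMul : Lˣ) : L) = 1 := fun 𝔓 =>
    (av_eq_zero_iff 𝔓 x).1 (h 𝔓)
  obtain ⟨a, ha⟩ := HeightOneSpectrum.mem_integers_of_valuation_le_one L ((x.toMul : Lˣ) : L)
    (fun 𝔓 => (h1 𝔓).le)
  obtain ⟨b, hb⟩ := HeightOneSpectrum.mem_integers_of_valuation_le_one L (((x.toMul : Lˣ) : L)⁻¹)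
    (fun 𝔓 => by rw [map_inv₀, h1 𝔓, inv_one])
  have hab : a * b = 1 := by
    apply FaithfulSMul.algebraMap_injective (𝓞 L) L
    rw [map_mul, ha, hb, map_one]
    exact mul_inv_cancel₀ (Units.ne_zero _)
  exact ⟨⟨a, b, hab, by rw [mul_comm]; exact hab⟩, ha⟩

theorem av_unit (𝔓 : HeightOneSpectrum (𝓞 L)) (u : (𝓞 L)ˣ) :
    av 𝔓 (Additive.ofMul (Units.map (algebraMap (𝓞 L) L : 𝓞 L →* L) u)) = 0 := by
  rw [av_eq_zero_iff]
  change 𝔓.valuation L (algebraMap (𝓞 L) L (u : 𝓞 L)) = 1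
  rw [𝔓.valuation_eq_one_iff_notMem]
  intro h
  exact 𝔓.isPrime.ne_top (Ideal.eq_top_of_isUnit_mem _ h u.isUnit)

/-- units modulo squares -/
theorem units_classes : ∃ w : Fin 2 × Finset (Fin (NumberField.Units.rank L)) → (𝓞 L)ˣ,
    ∀ c c', IsSquare (w c * w c') → c = c' := by
  obtain ⟨ζ, hζ⟩ := IsCyclic.exists_generator (α := NumberField.Units.torsion L)
  refine ⟨fun c => ((ζ ^ (c.1 : ℕ) : NumberField.Units.torsion L) : (𝓞 L)ˣ) *
    ∏ i, NumberField.Units.fundSystem L i ^ (if i ∈ c.2 then (1 : ℤ) else 0), ?_⟩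
  rintro ⟨e, J⟩ ⟨e', J'⟩ ⟨u, hu⟩
  obtain ⟨⟨t, n⟩, ht, _⟩ := NumberField.Units.exist_unique_eq_mul_prod L u
  simp only at ht hu
  obtain ⟨_, _, huniq⟩ := NumberField.Units.exist_unique_eq_mul_prod L (u * u)
  have h1 := huniq (t * t, fun i => n i + n i) (by
    simp only [zpow_add, Finset.prod_mul_distrib, Subgroup.coe_mul]
    rw [ht, mul_mul_mul_comm])
  have h2 := huniq (ζ ^ (e : ℕ) * ζ ^ (e' : ℕ), fun i => (if i ∈ J then (1 : ℤ) else 0) +
      (if i ∈ J' then (1 : ℤ) else 0)) (by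
    simp only [zpow_add, Finset.prod_mul_distrib, Subgroup.coe_mul]
    rw [← hu, mul_mul_mul_comm])
  have h3 := h1.trans h2.symm
  rw [Prod.mk.injEq] at h3
  obtain ⟨h4, h5⟩ := h3
  have hJ : J = J' := by
    ext i
    have h6 := congrFun h5 i
    by_cases hi : i ∈ J <;> by_cases hi' : i ∈ J' <;> simp only [hi, hi', if_true, if_false] at h6 ⊢
    · exfalso; omega
    · exfalso; omega
  have he : e = e' := by
    by_contra hne
    obtain ⟨k, hk⟩ := Subgroup.mem_zpowers_iff.1 (hζ t)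
    have h6 : ζ ^ (2 * k - 1 : ℤ) = 1 := by
      have h7 : ζ ^ (e : ℕ) * ζ ^ (e' : ℕ) = ζ := by
        rw [← pow_add]
        have : (e : ℕ) + (e' : ℕ) = 1 := by
          have := e.2; have := e'.2
          have : (e : ℕ) ≠ (e' : ℕ) := fun h => hne (Fin.ext h)
          omega
        rw [this, pow_one]
      rw [h7, ← hk, ← zpow_add] at h4
      rw [zpow_sub, two_mul, h4, zpow_one, mul_inv_cancel]
    have h7 : (orderOf ζ : ℤ) ∣ 2 * k - 1 := orderOf_dvd_iff_zpow_eq_one.2 h6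
    have h8 : orderOf ζ = NumberField.Units.torsionOrder L := by
      rw [NumberField.Units.torsionOrder]
      exact orderOf_eq_card_of_forall_mem_zpowers hζ
    have h9 := NumberField.Units.even_torsionOrder L
    rw [← h8] at h9
    have h10 : (2 : ℤ) ∣ orderOf ζ := by exact_mod_cast h9.two_dvd
    have h11 := h10.trans h7
    omega
  rw [hJ, he]

end

theorem unx : S_UNX := by
  intro L _ _ T
  let φ : Additive Lˣ →+ (T → ℤ) := Pi.addMonoidHom fun t => av t.1
  have hφ : ∀ x t, φ x t = av t.1 x := fun _ _ => rfl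
  let U : AddSubgroup (Additive Lˣ) :=
    { carrier := {x | ∀ 𝔓 : HeightOneSpectrum (𝓞 L), 𝔓 ∉ T → av 𝔓 x = 0}
      zero_mem' := fun 𝔓 _ => map_zero _
      add_mem' := fun {x y} hx hy 𝔓 h => by rw [map_add, hx 𝔓 h, hy 𝔓 h, add_zero]
      neg_mem' := fun {x} hx 𝔓 h => by rw [map_neg, hx 𝔓 h, neg_zero] }
  have hU : ∀ x, x ∈ U ↔ ∀ 𝔓 : HeightOneSpectrum (𝓞 L), 𝔓 ∉ T → av 𝔓 x = 0 := fun _ => Iff.rfl
  let Λ : Submodule ℤ (T → ℤ) := AddSubgroup.toIntSubmodule (U.map φ)
  have hΛ : ∀ l, l ∈ Λ ↔ ∃ x ∈ U, φ x = l := fun l => by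
    change l ∈ U.map φ ↔ _
    rw [AddSubgroup.mem_map]
  choose a ha1 ha2 using fun t : T => exists_gen t.1
  have haU : ∀ t, a t ∈ U := fun t => (hU _).2 fun 𝔓 h => ha2 t 𝔓 (fun h' => h (h' ▸ t.2))
  obtain ⟨n, bs⟩ := Submodule.basisOfPid (Pi.basisFun ℤ T) Λ
  let D : T → Λ := fun t => ⟨φ (a t), (hΛ _).2 ⟨a t, haU t, rfl⟩⟩
  have hli : LinearIndependent ℤ D := by
    rw [Fintype.linearIndependent_iff]
    intro g hg t
    have h1 : (∑ s, g s • φ (a s)) t = 0 := by
      have := congrArg (fun l : Λ => (l : T → ℤ)) hg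
      simp only [Submodule.coe_sum, Submodule.coe_smul, D] at this
      rw [this]
      rfl
    rw [Finset.sum_apply, Finset.sum_eq_single t] at h1
    · rw [Pi.smul_apply, hφ, smul_eq_mul] at h1
      exact (mul_eq_zero.1 h1).resolve_right (ha1 t)
    · intro s _ hs
      rw [Pi.smul_apply, hφ, ha2 s t.1 (fun h => hs (Subtype.ext h.symm)), smul_zero]
    · intro h
      exact absurd (Finset.mem_univ t) h
  have hn : T.card ≤ n := by
    haveI : Module.Finite ℤ Λ := Module.Finite.of_basis bs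
    have h1 := hli.fintype_card_le_finrank
    rw [Module.finrank_eq_card_basis bs, Fintype.card_fin, Fintype.card_coe] at h1
    exact h1
  choose x hxU hx using fun i : Fin n => (hΛ _).1 (bs i).2
  let p : Finset (Fin n) → Additive Lˣ := fun I => ∑ i ∈ I, x i
  have hpU : ∀ I, p I ∈ U := fun I => U.sum_mem fun i _ => hxU i
  have hpφ : ∀ I, φ (p I) = ∑ i ∈ I, (bs i : T → ℤ) := fun I => by
    simp only [p, map_sum, hx]
  obtain ⟨w, hw⟩ := units_classes (L := L)
  let W : Fin 2 × Finset (Fin (NumberField.Units.rank L)) → Additive Lˣ := fun c =>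
    Additive.ofMul (Units.map (algebraMap (𝓞 L) L : 𝓞 L →* L) (w c))
  have hW : ∀ c 𝔓, av 𝔓 (W c) = 0 := fun c 𝔓 => av_unit 𝔓 (w c)
  have hWφ : ∀ c, φ (W c) = 0 := fun c => by
    ext t
    rw [hφ, hW]
    rfl
  let r : Finset (Fin n) × (Fin 2 × Finset (Fin (NumberField.Units.rank L))) → Additive Lˣ :=
    fun c => p c.1 + W c.2
  have hrU : ∀ c, r c ∈ U := fun c => U.add_mem (hpU _) ((hU _).2 fun 𝔓 _ => hW _ 𝔓)
  have key : ∀ c c', IsSquare ((((r c).toMul : Lˣ) : L) * (((r c').toMul : Lˣ) : L)) → c = c' := by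
    rintro ⟨I, c⟩ ⟨I', c'⟩ ⟨z, hz⟩
    have hz0 : z ≠ 0 := by
      rintro rfl
      rw [zero_mul] at hz
      exact (mul_ne_zero (Units.ne_zero _) (Units.ne_zero _)) hz
    set zu : Additive Lˣ := Additive.ofMul (Units.mk0 z hz0) with hzu
    have h1 : r (I, c) + r (I', c') = zu + zu := by
      apply Additive.toMul.injective
      apply Units.ext
      exact hz
    have h2 : zu ∈ U := by
      rw [hU]
      intro 𝔓 h𝔓
      have h3 := congrArg (av 𝔓) h1
      rw [map_add (av 𝔓) (r (I, c)) (r (I', c')), map_add (av 𝔓) zu zu,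
        (hU _).1 (hrU (I, c)) 𝔓 h𝔓, (hU _).1 (hrU (I', c')) 𝔓 h𝔓] at h3
      omega
    set l : Λ := ⟨φ zu, (hΛ _).2 ⟨zu, h2, rfl⟩⟩ with hl
    have h4 : (∑ i ∈ I, bs i) + (∑ i ∈ I', bs i) = l + l := by
      apply Subtype.ext
      have h5 := congrArg φ h1
      simp only [r, map_add, hWφ, add_zero] at h5
      rw [hpφ, hpφ] at h5
      simp only [Submodule.coe_add, Submodule.coe_sum]
      exact h5
    have h6 : ∀ J : Finset (Fin n), ∀ i, bs.repr (∑ j ∈ J, bs j) i = if i ∈ J then 1 else 0 := by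
      intro J i
      rw [map_sum, Finsupp.finset_sum_apply]
      simp only [Module.Basis.repr_self, Finsupp.single_apply]
      rw [Finset.sum_ite_eq']
    have hI : I = I' := by
      ext i
      have h7 := congrArg (fun l => bs.repr l i) h4
      simp only [map_add, Finsupp.add_apply, h6] at h7
      by_cases hi : i ∈ I <;> by_cases hi' : i ∈ I' <;> simp only [hi, hi', if_true, if_false] at h7 ⊢
      · exfalso; omega
      · exfalso; omega
    subst hI
    have h8 : W c + W c' = (zu - p I) + (zu - p I) := by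
      have : r (I, c) + r (I, c') = (p I + p I) + (W c + W c') := by
        simp only [r]; abel
      rw [this] at h1
      have h9 : W c + W c' = zu + zu - (p I + p I) := by
        rw [← h1]; abel
      rw [h9]; abel
    obtain ⟨u, hu⟩ := exists_unit (zu - p I) (fun 𝔓 => by
      have h9 := congrArg (av 𝔓) h8
      rw [map_add, map_add, hW, hW] at h9
      omega)
    have h10 : IsSquare (w c * w c') := by
      refine ⟨u, ?_⟩
      apply Units.ext
      apply FaithfulSMul.algebraMap_injective (𝓞 L) L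
      rw [Units.val_mul, Units.val_mul, map_mul, map_mul, hu]
      have h11 := congrArg (fun y : Additive Lˣ => ((y.toMul : Lˣ) : L)) h8
      exact h11
    rw [hw _ _ h10]
  have hinj : Function.Injective fun c => (((r c).toMul : Lˣ) : L) := by
    intro c c' h
    apply key
    simp only at h
    rw [h]
    exact ⟨_, rfl⟩
  have hcard : 2 ^ (T.card + NumberField.Units.rank L + 1) ≤
      (Finset.univ.image fun c => (((r c).toMul : Lˣ) : L)).card := by
    rw [Finset.card_image_of_injective _ hinj, Finset.card_univ, Fintype.card_prod, Fintype.card_prod,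
      Fintype.card_finset, Fintype.card_finset, Fintype.card_fin, Fintype.card_fin, Fintype.card_fin]
    calc 2 ^ (T.card + NumberField.Units.rank L + 1) =
        2 ^ T.card * (2 * 2 ^ NumberField.Units.rank L) := by ring
      _ ≤ _ := Nat.mul_le_mul_right _ (Nat.pow_le_pow_right (by norm_num) hn)
  obtain ⟨X, hX, hXc⟩ := Finset.exists_subset_card_eq hcard
  refine ⟨X, hXc, ?_, ?_⟩
  · intro y hy
    obtain ⟨I, _, rfl⟩ := Finset.mem_image.1 (hX hy)
    refine ⟨Units.ne_zero _, fun 𝔓 h => ?_⟩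
    rw [← av_eq_zero_iff]
    exact (hU _).1 (hrU I) 𝔓 h
  · intro y hy y' hy' hne hsq
    obtain ⟨I, _, rfl⟩ := Finset.mem_image.1 (hX hy)
    obtain ⟨I', _, rfl⟩ := Finset.mem_image.1 (hX hy')
    exact hne (by rw [key I I' hsq])

end Pool.Agent.Run7.h224.DI
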